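import Pool.Agent.Work.MP_2738db_nt_Y_helper17.ZE
import Pool.Agent.Work.MP_2738db_nt_Y.Interface3

/-!
Block ZEG of Theorem Y (MP_2738db_nt): the zero estimate for the interpolation matrix with general
bases (copy of helper17's ZE).
-/

set_option autoImplicit false

namespace Pool.Agent.Work.MP_2738db_nt_Y.helper92

open Finset Polynomial
open Pool.Agent.Work.MP_2738db_nt_Y.helper17

/-- **ZEG** -/
theorem zeg : Stmt_Zpl → Stmt_Val → Stmt_Zeg := by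
  classical
  intro hZ hV p q K L R₁ R α β₁ β₂ hp hq hpq hα hβ₁ hβ₂ hK hL h2p h2q hRR hbig hKL c h
  by_contra hc
  let J : Finset (Fin L) := univ.filter (fun l => ∃ k₁ k₂, c (k₁, k₂, l) ≠ 0)
  have hJ : 0 < J.card := by
    rw [Finset.card_pos]
    obtain ⟨⟨k₁, k₂, l⟩, hkl⟩ := Function.ne_iff.mp hc
    exact ⟨l, by simp only [J, mem_filter, mem_univ, true_and]; exact ⟨k₁, k₂, hkl⟩⟩
  let e : Fin J.card ≃ J := J.equivFin.symm
  have hJL : J.card ≤ L := by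
    have := Finset.card_le_univ J
    simpa using this
  let P : Fin J.card → ℚ[X][X] := fun j => zeP (fun k₁ k₂ => c (k₁, k₂, (e j : Fin L)))
  have hfilt : ∀ l : Fin L, l ∉ J → ∀ k₁ k₂, c (k₁, k₂, l) = 0 := by
    intro l hl k₁ k₂
    by_contra h1
    exact hl (by simp only [J, mem_filter, mem_univ, true_and]; exact ⟨k₁, k₂, h1⟩)
  obtain ⟨Δ, hΔ, hB, hvan⟩ := ze_core hJ (fun j => ((e j : Fin L) : ℕ)) (by
      intro i j hij
      apply e.injective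
      apply Subtype.ext
      exact Fin.ext hij) P (by
      intro j
      apply zeP_ne
      have h2 := (e j).2
      simp only [J, mem_filter, mem_univ, true_and] at h2
      exact h2) K (fun j => zeP_bideg _) β₁ hβ₁ q
  have hBD : BiDeg (K * L) Δ := by
    have h1 : K * J.card ≤ K * L := Nat.mul_le_mul_left _ hJL
    exact ⟨hB.1.trans h1, fun i => (hB.2 i).trans h1⟩
  -- vanishing at the points
  have hpt : ∀ r₁ < 2 * R₁, ∀ r₂ < 2 * R, ∀ r₃ < 2 * R,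
      ev ((r₁ + q * r₂ : ℕ) : ℚ) ((p * (r₃ + 1) - r₁ : ℕ) : ℚ) Δ = 0 := by
    intro r₁ hr₁ r₂ hr₂ r₃ hr₃
    apply hvan _ _ (α ^ r₁ * β₁ ^ r₂ * β₂ ^ (r₃ + 1))
    · have h1 : β₁ ≠ 0 := by positivity
      have h2 : β₂ ≠ 0 := hβ₂.ne'
      exact mul_ne_zero (mul_ne_zero (pow_ne_zero _ hα.ne') (pow_ne_zero _ h1)) (pow_ne_zero _ h2)
    · intro s
      have hs := s.2
      have h1 := h r₁ hr₁ (r₂ + s) (by omega) r₃ hr₃
      rw [← h1]
      have h3 : ∀ j : Fin J.card, ev (((r₁ + q * r₂ : ℕ) : ℚ) + (s : ℕ) * q)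
          ((p * (r₃ + 1) - r₁ : ℕ) : ℚ) (P j) =
          ∑ k₁ : Fin K, ∑ k₂ : Fin K, c (k₁, k₂, (e j : Fin L)) *
            ((Nat.choose (r₁ + q * (r₂ + s)) k₁ : ℚ) *
              (Nat.choose (p * (r₃ + 1) - r₁) k₂ : ℚ)) := by
        intro j
        rw [← zeP_ev]
        have h4 : ((r₁ + q * r₂ : ℕ) : ℚ) + (s : ℕ) * q = ((r₁ + q * (r₂ + s) : ℕ) : ℚ) := by
          push_cast
          ring
        rw [h4]
      have h5 : ∑ i : Fin K × Fin K × Fin L, c i * ((Nat.choose (r₁ + q * (r₂ + s)) i.1 : ℚ) *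
          (Nat.choose (p * (r₃ + 1) - r₁) i.2.1 : ℚ) *
          (α ^ r₁ * β₁ ^ (r₂ + (s : ℕ)) * β₂ ^ (r₃ + 1)) ^ (i.2.2 : ℕ)) =
          ∑ l : Fin L, ∑ k₁ : Fin K, ∑ k₂ : Fin K, c (k₁, k₂, l) *
            ((Nat.choose (r₁ + q * (r₂ + s)) k₁ : ℚ) *
            (Nat.choose (p * (r₃ + 1) - r₁) k₂ : ℚ) *
            (α ^ r₁ * β₁ ^ (r₂ + (s : ℕ)) * β₂ ^ (r₃ + 1)) ^ (l : ℕ)) := by
        rw [Fintype.sum_prod_type]
        symm
        rw [Finset.sum_comm]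
        apply Finset.sum_congr rfl
        intro k₁ _
        rw [Finset.sum_comm]
        symm
        rw [Fintype.sum_prod_type]
      rw [h5]
      have h6 : ∑ l : Fin L, ∑ k₁ : Fin K, ∑ k₂ : Fin K, c (k₁, k₂, l) *
            ((Nat.choose (r₁ + q * (r₂ + s)) k₁ : ℚ) *
            (Nat.choose (p * (r₃ + 1) - r₁) k₂ : ℚ) *
            (α ^ r₁ * β₁ ^ (r₂ + (s : ℕ)) * β₂ ^ (r₃ + 1)) ^ (l : ℕ)) =
          ∑ l ∈ J, ∑ k₁ : Fin K, ∑ k₂ : Fin K, c (k₁, k₂, l) *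
            ((Nat.choose (r₁ + q * (r₂ + s)) k₁ : ℚ) *
            (Nat.choose (p * (r₃ + 1) - r₁) k₂ : ℚ) *
            (α ^ r₁ * β₁ ^ (r₂ + (s : ℕ)) * β₂ ^ (r₃ + 1)) ^ (l : ℕ)) := by
        symm
        apply Finset.sum_subset (Finset.subset_univ _)
        intro l _ hl
        apply Finset.sum_eq_zero
        intro k₁ _
        apply Finset.sum_eq_zero
        intro k₂ _
        rw [hfilt l hl k₁ k₂, zero_mul]
      rw [h6, ← Finset.sum_coe_sort J, ← Equiv.sum_comp e]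
      apply Finset.sum_congr rfl
      intro j _
      rw [h3 j, Finset.sum_mul]
      apply Finset.sum_congr rfl
      intro k₁ _
      rw [Finset.sum_mul]
      apply Finset.sum_congr rfl
      intro k₂ _
      have h7 : α ^ r₁ * β₁ ^ (r₂ + (s : ℕ)) * β₂ ^ (r₃ + 1) =
          α ^ r₁ * β₁ ^ r₂ * β₂ ^ (r₃ + 1) * β₁ ^ (s : ℕ) := by
        rw [pow_add]
        ring
      rw [h7]
      ring
  obtain ⟨hcard, hval⟩ := hV p q R₁ R hp hq hpq (by omega) (by omega) hRR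
  have hfin := hZ Δ (K * L) (Xi p q R₁ R) hΔ hBD (by
    intro s hs t ht
    simp only [Xi, mem_image, mem_product, mem_range, Prod.exists] at hs ht
    obtain ⟨a₁, a₂, a₃, ⟨ha₁, ha₂, ha₃⟩, rfl⟩ := hs
    obtain ⟨b₁, b₂, b₃, ⟨hb₁, hb₂, hb₃⟩, rfl⟩ := ht
    have h1 := hpt (a₁ + b₁) (by omega) (a₂ + b₂) (by omega) (a₃ + b₃ + 1) (by omega)
    have hle : a₁ + b₁ ≤ p * (a₃ + b₃ + 1 + 1) := by
      have : p * 1 ≤ p * (a₃ + b₃ + 1 + 1) := Nat.mul_le_mul_left _ (by omega)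
      omega
    rw [Nat.cast_sub hle] at h1
    rw [← h1]
    push_cast
    have e1 : ((a₁ : ℚ) + q * a₂ + (b₁ + q * b₂)) = ((a₁ : ℚ) + b₁ + q * (a₂ + b₂)) := by ring
    have e2 : ((p : ℚ) * (a₃ + 1) - a₁ + (p * (b₃ + 1) - b₁)) =
        ((p : ℚ) * (a₃ + b₃ + 1 + 1) - (a₁ + b₁)) := by ring
    rw [e1, e2])
    (fun a b hab => lt_of_lt_of_le hKL (hval a b hab))
  rw [hcard] at hfin
  omega

end Pool.Agent.Work.MP_2738db_nt_Y.helper92
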